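import Pool.Agent.H137R5.TowFree
import Pool.Agent.TH813.Dens

/-!
# Towers `e ^ (v n ^ c)` with complex `v`, `c`: prime cubes are impossible
-/

set_option autoImplicit false

namespace Pool.Agent.TH681.TW

open Pool.Agent.H301R2.SSE Pool.Agent.H137R5.Tow

/-- the complex power `n ^ c = exp (c log n)` of a natural number -/
noncomputable def pw (c : ℂ) (n : ℕ) : ℂ := Complex.exp (c * ((Real.log n : ℝ) : ℂ))

theorem pw_ne (c : ℂ) (n : ℕ) : pw c n ≠ 0 := Complex.exp_ne_zero _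

theorem pw_mul (c : ℂ) {a b : ℕ} (ha : 0 < a) (hb : 0 < b) : pw c (a * b) = pw c a * pw c b := by
  have ha' : (a : ℝ) ≠ 0 := by exact_mod_cast ha.ne'
  have hb' : (b : ℝ) ≠ 0 := by exact_mod_cast hb.ne'
  unfold pw
  rw [Nat.cast_mul, Real.log_mul ha' hb', ← Complex.exp_add]
  push_cast
  congr 1
  ring

/-- Gelfond–Schneider for quotients of positive integers, complex exponents -/
theorem gsC {c : ℂ} (hc : IsAlgebraic ℚ c) (hci : ∀ r : ℚ, c ≠ r) {p q : ℕ} (hp : 0 < p)
    (hq : 0 < q) (hne : p ≠ q) : Transcendental ℚ (pw c q / pw c p) := by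
  have hp' : (0 : ℝ) < p := by exact_mod_cast hp
  have hq' : (0 : ℝ) < q := by exact_mod_cast hq
  set l : ℂ := ((Real.log q - Real.log p : ℝ) : ℂ) with hl
  have hl0 : l ≠ 0 := by
    rw [hl, Complex.ofReal_ne_zero, sub_ne_zero]
    intro h
    have := Real.log_injOn_pos (Set.mem_Ioi.2 hq') (Set.mem_Ioi.2 hp') h
    exact hne (by exact_mod_cast this.symm)
  have he : pw c q / pw c p = Complex.exp (c * l) := by
    unfold pw
    rw [← Complex.exp_sub, hl]
    push_cast
    congr 1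
    ring
  rw [he]
  intro h
  have hexp : IsAlgebraic ℚ (Complex.exp l) := by
    rw [hl, ← Complex.ofReal_exp, Real.exp_sub, Real.exp_log hq', Real.exp_log hp']
    push_cast
    exact (isAlgebraic_natCast _).mul (isAlgebraic_natCast _).inv
  have hli : LinearIndependent ℚ ![l, c * l] := by
    rw [LinearIndependent.pair_iff]
    intro s t hst
    have h1 : ((s : ℂ) + t * c) * l = 0 := by
      rw [← hst, Rat.smul_def, Rat.smul_def]; ring
    have h2 : (s : ℂ) + t * c = 0 := by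
      rcases mul_eq_zero.mp h1 with h2 | h2
      · exact h2
      · exact absurd h2 hl0
    by_cases ht : t = 0
    · subst ht
      refine ⟨?_, rfl⟩
      simpa using h2
    · exfalso
      apply hci (-s / t)
      have ht' : (t : ℂ) ≠ 0 := by exact_mod_cast ht
      push_cast
      field_simp
      linear_combination h2
  have := Pool.Agent.H297R2.baker_inhom ![l, c * l] (by
    intro i
    fin_cases i
    · exact hexp
    · exact h) hli 0 isAlgebraic_zero ![c, -1] (by
    intro i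
    fin_cases i
    · exact hc
    · exact isAlgebraic_one.neg) (by
    rw [Fin.sum_univ_two]
    simp)
  have := this.2 1
  simp at this

/-- strong six exponentials with the rows `1` and `b` -/
theorem coreC (b : ℂ) (hb : Transcendental ℚ b) (y0 y1 y2 : ℂ) (hy : Ind3 y0 y1 y2)
    (h0 : y0 ∈ Lt) (h1 : y1 ∈ Lt) (h2 : y2 ∈ Lt)
    (k0 : b * y0 ∈ Lt) (k1 : b * y1 ∈ Lt) (k2 : b * y2 ∈ Lt) : False := by
  refine strong_six ![1, b] ![y0, y1, y2] ?_ ?_ ?_
  · intro a c ha hc hac
    simp only [Matrix.cons_val_zero, Matrix.cons_val_one] at hac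
    by_cases hc0 : c = 0
    · subst hc0
      exact ⟨by simpa using hac, rfl⟩
    · exfalso
      apply hb
      have : b = -a / c := by
        field_simp
        linear_combination hac
      rw [this]
      exact (ha.neg).mul hc.inv
  · intro c hc hsum
    rw [Fin.sum_univ_three] at hsum
    simp only [Matrix.cons_val_zero, Matrix.cons_val_one, Matrix.cons_val] at hsum
    have := hy (c 0) (c 1) (c 2) (hc 0) (hc 1) (hc 2) hsum
    intro j
    fin_cases j
    · exact this.1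
    · exact this.2.1
    · exact this.2.2
  · intro i j
    fin_cases i <;> fin_cases j
    · simpa using h0
    · simpa using h1
    · simpa using h2
    · simpa using k0
    · simpa using k1
    · simpa using k2

/-- no multiplicative cubes of dimension three -/
theorem no_cube {v c : ℂ} (hv : v ≠ 0) (hc : IsAlgebraic ℚ c) (hci : ∀ r : ℚ, c ≠ r)
    (m p0 q0 p1 q1 p2 q2 : ℕ) (hm : 0 < m) (hp0 : 0 < p0) (hq0 : 0 < q0) (hp1 : 0 < p1)
    (hq1 : 0 < q1) (hp2 : 0 < p2) (hq2 : 0 < q2) (h0 : p0 ≠ q0) (h1 : p1 ≠ q1) (h2 : p2 ≠ q2)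
    (m000 : v * pw c (m * p0 * p1 * p2) ∈ Lt) (m100 : v * pw c (m * q0 * p1 * p2) ∈ Lt)
    (m010 : v * pw c (m * p0 * q1 * p2) ∈ Lt) (m110 : v * pw c (m * q0 * q1 * p2) ∈ Lt)
    (m001 : v * pw c (m * p0 * p1 * q2) ∈ Lt) (m101 : v * pw c (m * q0 * p1 * q2) ∈ Lt)
    (m011 : v * pw c (m * p0 * q1 * q2) ∈ Lt) (m111 : v * pw c (m * q0 * q1 * q2) ∈ Lt) :
    False := by
  have e : ∀ a b d : ℕ, 0 < a → 0 < b → 0 < d →
      pw c (m * a * b * d) = pw c m * pw c a * pw c b * pw c d := by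
    intro a b d ha hb hd
    rw [pw_mul c (by positivity) hd, pw_mul c (by positivity) hb, pw_mul c hm ha]
  rw [e _ _ _ hp0 hp1 hp2] at m000
  rw [e _ _ _ hq0 hp1 hp2] at m100
  rw [e _ _ _ hp0 hq1 hp2] at m010
  rw [e _ _ _ hq0 hq1 hp2] at m110
  rw [e _ _ _ hp0 hp1 hq2] at m001
  rw [e _ _ _ hq0 hp1 hq2] at m101
  rw [e _ _ _ hp0 hq1 hq2] at m011
  rw [e _ _ _ hq0 hq1 hq2] at m111
  have s0 := gsC hc hci hp0 hq0 h0
  have s1 := gsC hc hci hp1 hq1 h1
  have s2 := gsC hc hci hp2 hq2 h2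
  have cP0 := pw_ne c p0
  have cP1 := pw_ne c p1
  have cP2 := pw_ne c p2
  have cA := pw_ne c m
  generalize pw c m = A at *
  generalize pw c p0 = P0 at *
  generalize pw c p1 = P1 at *
  generalize pw c p2 = P2 at *
  generalize pw c q0 = Q0 at *
  generalize pw c q1 = Q1 at *
  generalize pw c q2 = Q2 at *
  set u : ℂ := A * (P0 * P1 * P2) * v with hu
  have hu0 : u ≠ 0 := by
    rw [hu]
    exact mul_ne_zero (mul_ne_zero cA (mul_ne_zero (mul_ne_zero cP0 cP1) cP2)) hv
  have e000 : u * 1 = v * (A * P0 * P1 * P2) := by rw [hu]; ring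
  have e100 : u * (Q0 / P0) = v * (A * Q0 * P1 * P2) := by rw [hu]; field_simp
  have e010 : u * (Q1 / P1) = v * (A * P0 * Q1 * P2) := by rw [hu]; field_simp
  have e110 : u * (Q0 / P0 * (Q1 / P1)) = v * (A * Q0 * Q1 * P2) := by rw [hu]; field_simp
  have b000 : (Q2 / P2) * (u * 1) = v * (A * P0 * P1 * Q2) := by rw [hu]; field_simp
  have b100 : (Q2 / P2) * (u * (Q0 / P0)) = v * (A * Q0 * P1 * Q2) := by rw [hu]; field_simp
  have b010 : (Q2 / P2) * (u * (Q1 / P1)) = v * (A * P0 * Q1 * Q2) := by rw [hu]; field_simp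
  have b110 : (Q2 / P2) * (u * (Q0 / P0 * (Q1 / P1))) = v * (A * Q0 * Q1 * Q2) := by
    rw [hu]; field_simp
  rcases square _ _ s0 s1 with h | h
  · refine coreC (Q2 / P2) s2 (u * 1) (u * (Q0 / P0)) (u * (Q1 / P1)) (h.smul hu0)
      ?_ ?_ ?_ ?_ ?_ ?_
    · rw [e000]; exact m000
    · rw [e100]; exact m100
    · rw [e010]; exact m010
    · rw [b000]; exact m001
    · rw [b100]; exact m101
    · rw [b010]; exact m011
  · refine coreC (Q2 / P2) s2 (u * 1) (u * (Q0 / P0)) (u * (Q0 / P0 * (Q1 / P1)))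
      (h.smul hu0) ?_ ?_ ?_ ?_ ?_ ?_
    · rw [e000]; exact m000
    · rw [e100]; exact m100
    · rw [e110]; exact m110
    · rw [b000]; exact m001
    · rw [b100]; exact m101
    · rw [b110]; exact m111

open Classical in
/-- **Middle entries.** The constant is absolute. -/
theorem mid_count : ∃ C : ℝ, 0 ≤ C ∧ ∀ v c : ℂ, v ≠ 0 → IsAlgebraic ℚ c → (∀ r : ℚ, c ≠ r) →
    ∀ x : ℕ, 16 ≤ x → (((Finset.Icc 1 x).filter (fun n : ℕ => v * pw c n ∈ Lt)).card : ℝ) ≤
      C * x * Real.log (Real.log x) ^ 3 / Real.log x := by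
  obtain ⟨C, hC0, hC⟩ := Pool.Agent.TH813.Dens.thin
  refine ⟨C, hC0, fun v c hv hc hci x hx => ?_⟩
  have := hC (fun n => v * pw c n ∈ Lt) (by
    intro m p q r hm hp hq hr hpp hqp hrp _ _ hbad
    exact no_cube hv hc hci m (p 0) (p 1) (q 0) (q 1) (r 0) (r 1) hm (hpp 0).pos (hpp 1).pos
      (hqp 0).pos (hqp 1).pos (hrp 0).pos (hrp 1).pos
      (fun h => absurd (hp h) (by decide)) (fun h => absurd (hq h) (by decide))
      (fun h => absurd (hr h) (by decide)) (hbad 0 0 0) (hbad 1 0 0) (hbad 0 1 0) (hbad 1 1 0)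
      (hbad 0 0 1) (hbad 1 0 1) (hbad 0 1 1) (hbad 1 1 1)) x hx
  convert this using 4

end Pool.Agent.TH681.TW
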