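import Pool.Agent.TH681.TW.Mid

/-!
# Towers `e ^ (v z ^ k)`: varying the top entry `k`
-/

set_option autoImplicit false

namespace Pool.Agent.TH681.TW

open Pool.Agent.H301R2.SSE Pool.Agent.H137R5.Tow

theorem zpow_trC {z : ℂ} (hz : Transcendental ℚ z) {r : ℤ} (hr : r ≠ 0) :
    Transcendental ℚ (z ^ r) := by
  intro h
  apply hz
  obtain ⟨n, rfl | rfl⟩ := r.eq_nat_or_neg
  · rw [zpow_natCast] at h
    refine h.of_pow (n := n) ?_
    rcases Nat.eq_zero_or_pos n with h0 | h0
    · subst h0; simp at hr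
    · exact h0
  · rw [zpow_neg, zpow_natCast] at h
    have h2 := h.inv
    rw [inv_inv] at h2
    refine h2.of_pow (n := n) ?_
    rcases Nat.eq_zero_or_pos n with h0 | h0
    · subst h0; simp at hr
    · exact h0

theorem diff_twoC {z v : ℂ} (hz : Transcendental ℚ z) (hv : v ≠ 0) (r : ℤ) (hr : r ≠ 0)
    (k l m k' l' m' : ℕ) (hk : (k : ℤ) + r = k') (hl : (l : ℤ) + r = l') (hm : (m : ℤ) + r = m')
    (hkl : k ≠ l) (hkm : k ≠ m) (hlm : l ≠ m)
    (ek : v * z ^ k ∈ Lt) (el : v * z ^ l ∈ Lt) (em : v * z ^ m ∈ Lt)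
    (ek' : v * z ^ k' ∈ Lt) (el' : v * z ^ l' ∈ Lt) (em' : v * z ^ m' ∈ Lt) : False := by
  have hz0 : z ≠ 0 := by
    intro h
    apply hz
    rw [h]
    exact isAlgebraic_zero
  have h3 := (powers z hz k l m hkl hkm hlm).smul hv
  have shift : ∀ j j' : ℕ, (j : ℤ) + r = j' → v * z ^ j' ∈ Lt → z ^ r * (v * z ^ j) ∈ Lt := by
    intro j j' hj hj'
    have h1 : z ^ r * z ^ j = z ^ j' := by
      rw [← zpow_natCast z j, ← zpow_natCast z j', ← zpow_add₀ hz0, ← hj, add_comm]
    have : z ^ r * (v * z ^ j) = v * z ^ j' := by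
      rw [← h1]; ring
    rw [this]
    exact hj'
  exact coreC (z ^ r) (zpow_trC hz hr) _ _ _ h3 ek el em
    (shift k k' hk ek') (shift l l' hl el') (shift m m' hm em')

open Classical in
theorem top_nat {z v : ℂ} (hz : Transcendental ℚ z) (hv : v ≠ 0) (N : ℕ) :
    (((Finset.Icc 1 N).filter (fun k : ℕ => v * z ^ k ∈ Lt)).card : ℝ) ≤
      2 * Real.sqrt N + 1 := by
  set S := (Finset.Icc 1 N).filter (fun k : ℕ => v * z ^ k ∈ Lt) with hS
  have h1 := card_of_diff S N (by
    intro k hk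
    rw [hS, Finset.mem_filter, Finset.mem_Icc] at hk
    exact hk.1) (by
    intro r hr k hk l hl m hm k' hk' l' hl' m' hm' e1 e2 e3 n1 n2 n3
    rw [hS, Finset.mem_filter] at hk hl hm hk' hl' hm'
    exact diff_twoC hz hv r hr k l m k' l' m' e1 e2 e3 n1 n2 n3 hk.2 hl.2 hm.2 hk'.2 hl'.2 hm'.2)
  have h2 : (S.card : ℝ) * S.card ≤ 4 * N + S.card := by exact_mod_cast h1
  have h3 : Real.sqrt N * Real.sqrt N = N := Real.mul_self_sqrt (Nat.cast_nonneg _)
  have h4 : 0 ≤ Real.sqrt N := Real.sqrt_nonneg _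
  by_contra hcon
  push Not at hcon
  nlinarith

open Classical in
/-- **Top entries.** In every interval of `N` integers at most `2 √N + 1` exponents are bad. -/
theorem top_count {z v : ℂ} (hz : Transcendental ℚ z) (hv : v ≠ 0) (M : ℤ) (N : ℕ) :
    (((Finset.Ioc M (M + N)).filter (fun k : ℤ => v * z ^ k ∈ Lt)).card : ℝ) ≤
      2 * Real.sqrt N + 1 := by
  have hz0 : z ≠ 0 := by
    intro h
    apply hz
    rw [h]
    exact isAlgebraic_zero
  refine le_trans ?_ (top_nat hz (mul_ne_zero hv (zpow_ne_zero M hz0)) N)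
  have : ((Finset.Ioc M (M + N)).filter (fun k : ℤ => v * z ^ k ∈ Lt)).card ≤
      ((Finset.Icc 1 N).filter (fun k : ℕ => v * z ^ M * z ^ k ∈ Lt)).card := by
    apply Finset.card_le_card_of_injOn (fun k => (k - M).toNat)
    · intro k hk
      rw [Finset.mem_coe, Finset.mem_filter, Finset.mem_Ioc] at hk
      rw [Finset.mem_coe, Finset.mem_filter, Finset.mem_Icc]
      have h0 : 1 ≤ (k - M).toNat ∧ (k - M).toNat ≤ N := by omega
      refine ⟨h0, ?_⟩
      have h1 : (((k - M).toNat : ℕ) : ℤ) = k - M := Int.toNat_of_nonneg (by omega)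
      have h2 : z ^ M * z ^ (k - M).toNat = z ^ k := by
        rw [← zpow_natCast z (k - M).toNat, h1, ← zpow_add₀ hz0]
        congr 1
        ring
      show v * z ^ M * z ^ (k - M).toNat ∈ Lt
      rw [mul_assoc, h2]
      exact hk.2
    · intro k hk l hl h
      rw [Finset.mem_coe, Finset.mem_filter, Finset.mem_Ioc] at hk hl
      simp only at h
      omega
  exact_mod_cast this

end Pool.Agent.TH681.TW
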